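import Pool.Agent.V7H92.S311.Data

set_option autoImplicit false

/-!
# The checks of the data

The checks are cut into pieces, so that the kernel holds only a small part of the work in memory
at any time.
-/

namespace Pool.Agent.V7H92.S311

theorem chkB_all : ∀ i < NB, chkB (bcT dB) i = true := by decide +kernel

theorem cI0 : ∀ k < 19, chkI (bcT dB) (MT dM) (0 + k) = true := by
  decide +kernel

theorem cI1 : ∀ k < 18, chkI (bcT dB) (MT dM) (19 + k) = true := by
  decide +kernel

theorem cI2 : ∀ k < 18, chkI (bcT dB) (MT dM) (37 + k) = true := by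
  decide +kernel

theorem cI3 : ∀ k < 18, chkI (bcT dB) (MT dM) (55 + k) = true := by
  decide +kernel

theorem cI4 : ∀ k < 18, chkI (bcT dB) (MT dM) (73 + k) = true := by
  decide +kernel

theorem cI5 : ∀ k < 18, chkI (bcT dB) (MT dM) (91 + k) = true := by
  decide +kernel

theorem cI6 : ∀ k < 18, chkI (bcT dB) (MT dM) (109 + k) = true := by
  decide +kernel

theorem cI7 : ∀ k < 18, chkI (bcT dB) (MT dM) (127 + k) = true := by
  decide +kernel

theorem cI8 : ∀ k < 19, chkI (bcT dB) (MT dM) (145 + k) = true := by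
  decide +kernel

theorem cI9 : ∀ k < 18, chkI (bcT dB) (MT dM) (164 + k) = true := by
  decide +kernel

theorem cI10 : ∀ k < 18, chkI (bcT dB) (MT dM) (182 + k) = true := by
  decide +kernel

theorem cI11 : ∀ k < 18, chkI (bcT dB) (MT dM) (200 + k) = true := by
  decide +kernel

theorem cI12 : ∀ k < 18, chkI (bcT dB) (MT dM) (218 + k) = true := by
  decide +kernel

theorem cI13 : ∀ k < 18, chkI (bcT dB) (MT dM) (236 + k) = true := by
  decide +kernel

theorem cI14 : ∀ k < 18, chkI (bcT dB) (MT dM) (254 + k) = true := by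
  decide +kernel

theorem cI15 : ∀ k < 18, chkI (bcT dB) (MT dM) (272 + k) = true := by
  decide +kernel

theorem cI16 : ∀ k < 19, chkI (bcT dB) (MT dM) (290 + k) = true := by
  decide +kernel

theorem cI17 : ∀ k < 18, chkI (bcT dB) (MT dM) (309 + k) = true := by
  decide +kernel

theorem cI18 : ∀ k < 18, chkI (bcT dB) (MT dM) (327 + k) = true := by
  decide +kernel

theorem cI19 : ∀ k < 18, chkI (bcT dB) (MT dM) (345 + k) = true := by
  decide +kernel

theorem cI20 : ∀ k < 18, chkI (bcT dB) (MT dM) (363 + k) = true := by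
  decide +kernel

theorem cI21 : ∀ k < 18, chkI (bcT dB) (MT dM) (381 + k) = true := by
  decide +kernel

theorem cI22 : ∀ k < 18, chkI (bcT dB) (MT dM) (399 + k) = true := by
  decide +kernel

theorem cI23 : ∀ k < 18, chkI (bcT dB) (MT dM) (417 + k) = true := by
  decide +kernel

theorem cU0 : ∀ k < 7, chkU NB (bcT dB) dW.get (2 + k) = true := by
  decide +kernel

theorem cU1 : ∀ k < 7, chkU NB (bcT dB) dW.get (9 + k) = true := by
  decide +kernel

theorem cU2 : ∀ k < 8, chkU NB (bcT dB) dW.get (16 + k) = true := by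
  decide +kernel

theorem cU3 : ∀ k < 7, chkU NB (bcT dB) dW.get (24 + k) = true := by
  decide +kernel

theorem cU4 : ∀ k < 8, chkU NB (bcT dB) dW.get (31 + k) = true := by
  decide +kernel

theorem cU5 : ∀ k < 7, chkU NB (bcT dB) dW.get (39 + k) = true := by
  decide +kernel

theorem cU6 : ∀ k < 8, chkU NB (bcT dB) dW.get (46 + k) = true := by
  decide +kernel

theorem cU7 : ∀ k < 9, chkU NB (bcT dB) dW.get (54 + k) = true := by
  decide +kernel

theorem cU8 : ∀ k < 8, chkU NB (bcT dB) dW.get (63 + k) = true := by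
  decide +kernel

theorem cU9 : ∀ k < 9, chkU NB (bcT dB) dW.get (71 + k) = true := by
  decide +kernel

theorem cU10 : ∀ k < 9, chkU NB (bcT dB) dW.get (80 + k) = true := by
  decide +kernel

theorem cU11 : ∀ k < 10, chkU NB (bcT dB) dW.get (89 + k) = true := by
  decide +kernel

theorem cU12 : ∀ k < 9, chkU NB (bcT dB) dW.get (99 + k) = true := by
  decide +kernel

theorem cU13 : ∀ k < 11, chkU NB (bcT dB) dW.get (108 + k) = true := by
  decide +kernel

theorem cU14 : ∀ k < 11, chkU NB (bcT dB) dW.get (119 + k) = true := by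
  decide +kernel

theorem cU15 : ∀ k < 11, chkU NB (bcT dB) dW.get (130 + k) = true := by
  decide +kernel

theorem cU16 : ∀ k < 12, chkU NB (bcT dB) dW.get (141 + k) = true := by
  decide +kernel

theorem cU17 : ∀ k < 13, chkU NB (bcT dB) dW.get (153 + k) = true := by
  decide +kernel

theorem cU18 : ∀ k < 15, chkU NB (bcT dB) dW.get (166 + k) = true := by
  decide +kernel

theorem cU19 : ∀ k < 15, chkU NB (bcT dB) dW.get (181 + k) = true := by
  decide +kernel

theorem cU20 : ∀ k < 18, chkU NB (bcT dB) dW.get (196 + k) = true := by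
  decide +kernel

theorem cU21 : ∀ k < 21, chkU NB (bcT dB) dW.get (214 + k) = true := by
  decide +kernel

theorem cU22 : ∀ k < 27, chkU NB (bcT dB) dW.get (235 + k) = true := by
  decide +kernel

theorem cU23 : ∀ k < 49, chkU NB (bcT dB) dW.get (262 + k) = true := by
  decide +kernel

theorem piece {p : ℕ → Prop} {a b : ℕ} (h : ∀ k < b, p (a + k)) {i : ℕ} (h1 : a ≤ i)
    (h2 : i < a + b) : p i := by
  have h3 := h (i - a) (by omega)
  rwa [Nat.add_sub_cancel' h1] at h3

theorem chkI_all : ∀ i < NB, chkI (bcT dB) (MT dM) i = true := by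
  intro i hi
  have hi' : i < 435 := hi
  rcases Nat.lt_or_ge i 19 with h1 | h1
  · exact piece (p := fun i => chkI (bcT dB) (MT dM) i = true) cI0 (Nat.zero_le _) (by omega)
  rcases Nat.lt_or_ge i 37 with h2 | h2
  · exact piece (p := fun i => chkI (bcT dB) (MT dM) i = true) cI1 h1 (by omega)
  rcases Nat.lt_or_ge i 55 with h3 | h3
  · exact piece (p := fun i => chkI (bcT dB) (MT dM) i = true) cI2 h2 (by omega)
  rcases Nat.lt_or_ge i 73 with h4 | h4
  · exact piece (p := fun i => chkI (bcT dB) (MT dM) i = true) cI3 h3 (by omega)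
  rcases Nat.lt_or_ge i 91 with h5 | h5
  · exact piece (p := fun i => chkI (bcT dB) (MT dM) i = true) cI4 h4 (by omega)
  rcases Nat.lt_or_ge i 109 with h6 | h6
  · exact piece (p := fun i => chkI (bcT dB) (MT dM) i = true) cI5 h5 (by omega)
  rcases Nat.lt_or_ge i 127 with h7 | h7
  · exact piece (p := fun i => chkI (bcT dB) (MT dM) i = true) cI6 h6 (by omega)
  rcases Nat.lt_or_ge i 145 with h8 | h8
  · exact piece (p := fun i => chkI (bcT dB) (MT dM) i = true) cI7 h7 (by omega)
  rcases Nat.lt_or_ge i 164 with h9 | h9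
  · exact piece (p := fun i => chkI (bcT dB) (MT dM) i = true) cI8 h8 (by omega)
  rcases Nat.lt_or_ge i 182 with h10 | h10
  · exact piece (p := fun i => chkI (bcT dB) (MT dM) i = true) cI9 h9 (by omega)
  rcases Nat.lt_or_ge i 200 with h11 | h11
  · exact piece (p := fun i => chkI (bcT dB) (MT dM) i = true) cI10 h10 (by omega)
  rcases Nat.lt_or_ge i 218 with h12 | h12
  · exact piece (p := fun i => chkI (bcT dB) (MT dM) i = true) cI11 h11 (by omega)
  rcases Nat.lt_or_ge i 236 with h13 | h13
  · exact piece (p := fun i => chkI (bcT dB) (MT dM) i = true) cI12 h12 (by omega)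
  rcases Nat.lt_or_ge i 254 with h14 | h14
  · exact piece (p := fun i => chkI (bcT dB) (MT dM) i = true) cI13 h13 (by omega)
  rcases Nat.lt_or_ge i 272 with h15 | h15
  · exact piece (p := fun i => chkI (bcT dB) (MT dM) i = true) cI14 h14 (by omega)
  rcases Nat.lt_or_ge i 290 with h16 | h16
  · exact piece (p := fun i => chkI (bcT dB) (MT dM) i = true) cI15 h15 (by omega)
  rcases Nat.lt_or_ge i 309 with h17 | h17
  · exact piece (p := fun i => chkI (bcT dB) (MT dM) i = true) cI16 h16 (by omega)
  rcases Nat.lt_or_ge i 327 with h18 | h18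
  · exact piece (p := fun i => chkI (bcT dB) (MT dM) i = true) cI17 h17 (by omega)
  rcases Nat.lt_or_ge i 345 with h19 | h19
  · exact piece (p := fun i => chkI (bcT dB) (MT dM) i = true) cI18 h18 (by omega)
  rcases Nat.lt_or_ge i 363 with h20 | h20
  · exact piece (p := fun i => chkI (bcT dB) (MT dM) i = true) cI19 h19 (by omega)
  rcases Nat.lt_or_ge i 381 with h21 | h21
  · exact piece (p := fun i => chkI (bcT dB) (MT dM) i = true) cI20 h20 (by omega)
  rcases Nat.lt_or_ge i 399 with h22 | h22
  · exact piece (p := fun i => chkI (bcT dB) (MT dM) i = true) cI21 h21 (by omega)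
  rcases Nat.lt_or_ge i 417 with h23 | h23
  · exact piece (p := fun i => chkI (bcT dB) (MT dM) i = true) cI22 h22 (by omega)
  exact piece (p := fun i => chkI (bcT dB) (MT dM) i = true) cI23 h23 (by omega)

theorem chkU_all : ∀ u < 311, 2 ≤ u → chkU NB (bcT dB) dW.get u = true := by
  intro u hu h0
  rcases Nat.lt_or_ge u 9 with h1 | h1
  · exact piece (p := fun u => chkU NB (bcT dB) dW.get u = true) cU0 h0 (by omega)
  rcases Nat.lt_or_ge u 16 with h2 | h2
  · exact piece (p := fun u => chkU NB (bcT dB) dW.get u = true) cU1 h1 (by omega)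
  rcases Nat.lt_or_ge u 24 with h3 | h3
  · exact piece (p := fun u => chkU NB (bcT dB) dW.get u = true) cU2 h2 (by omega)
  rcases Nat.lt_or_ge u 31 with h4 | h4
  · exact piece (p := fun u => chkU NB (bcT dB) dW.get u = true) cU3 h3 (by omega)
  rcases Nat.lt_or_ge u 39 with h5 | h5
  · exact piece (p := fun u => chkU NB (bcT dB) dW.get u = true) cU4 h4 (by omega)
  rcases Nat.lt_or_ge u 46 with h6 | h6
  · exact piece (p := fun u => chkU NB (bcT dB) dW.get u = true) cU5 h5 (by omega)
  rcases Nat.lt_or_ge u 54 with h7 | h7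
  · exact piece (p := fun u => chkU NB (bcT dB) dW.get u = true) cU6 h6 (by omega)
  rcases Nat.lt_or_ge u 63 with h8 | h8
  · exact piece (p := fun u => chkU NB (bcT dB) dW.get u = true) cU7 h7 (by omega)
  rcases Nat.lt_or_ge u 71 with h9 | h9
  · exact piece (p := fun u => chkU NB (bcT dB) dW.get u = true) cU8 h8 (by omega)
  rcases Nat.lt_or_ge u 80 with h10 | h10
  · exact piece (p := fun u => chkU NB (bcT dB) dW.get u = true) cU9 h9 (by omega)
  rcases Nat.lt_or_ge u 89 with h11 | h11
  · exact piece (p := fun u => chkU NB (bcT dB) dW.get u = true) cU10 h10 (by omega)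
  rcases Nat.lt_or_ge u 99 with h12 | h12
  · exact piece (p := fun u => chkU NB (bcT dB) dW.get u = true) cU11 h11 (by omega)
  rcases Nat.lt_or_ge u 108 with h13 | h13
  · exact piece (p := fun u => chkU NB (bcT dB) dW.get u = true) cU12 h12 (by omega)
  rcases Nat.lt_or_ge u 119 with h14 | h14
  · exact piece (p := fun u => chkU NB (bcT dB) dW.get u = true) cU13 h13 (by omega)
  rcases Nat.lt_or_ge u 130 with h15 | h15
  · exact piece (p := fun u => chkU NB (bcT dB) dW.get u = true) cU14 h14 (by omega)
  rcases Nat.lt_or_ge u 141 with h16 | h16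
  · exact piece (p := fun u => chkU NB (bcT dB) dW.get u = true) cU15 h15 (by omega)
  rcases Nat.lt_or_ge u 153 with h17 | h17
  · exact piece (p := fun u => chkU NB (bcT dB) dW.get u = true) cU16 h16 (by omega)
  rcases Nat.lt_or_ge u 166 with h18 | h18
  · exact piece (p := fun u => chkU NB (bcT dB) dW.get u = true) cU17 h17 (by omega)
  rcases Nat.lt_or_ge u 181 with h19 | h19
  · exact piece (p := fun u => chkU NB (bcT dB) dW.get u = true) cU18 h18 (by omega)
  rcases Nat.lt_or_ge u 196 with h20 | h20
  · exact piece (p := fun u => chkU NB (bcT dB) dW.get u = true) cU19 h19 (by omega)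
  rcases Nat.lt_or_ge u 214 with h21 | h21
  · exact piece (p := fun u => chkU NB (bcT dB) dW.get u = true) cU20 h20 (by omega)
  rcases Nat.lt_or_ge u 235 with h22 | h22
  · exact piece (p := fun u => chkU NB (bcT dB) dW.get u = true) cU21 h21 (by omega)
  rcases Nat.lt_or_ge u 262 with h23 | h23
  · exact piece (p := fun u => chkU NB (bcT dB) dW.get u = true) cU22 h22 (by omega)
  exact piece (p := fun u => chkU NB (bcT dB) dW.get u = true) cU23 h23 (by omega)

end Pool.Agent.V7H92.S311
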